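import Mathlib

/-!
# Generic partial orders with levels: existence
-/

set_option autoImplicit false

namespace Pool.Agent.X224.BE

/-- A partial order with a binary relation, a colour and levels (data). -/
@[ext] structure Str (α : Type) where
  /-- the order -/
  le : α → α → Prop
  /-- the binary relation -/
  Q : α → α → Prop
  /-- the colour -/
  col : α → Bool
  /-- the level -/
  lev : α → ℕ∞

/-- Pulling back. -/
def Str.pull {α β : Type} (M : Str α) (f : β → α) : Str β :=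
  ⟨fun a b => M.le (f a) (f b), fun a b => M.Q (f a) (f b), fun a => M.col (f a),
    fun a => M.lev (f a)⟩

theorem Str.pull_pull {α β γ : Type} (M : Str α) (f : β → α) (g : γ → β) :
    (M.pull f).pull g = M.pull (f ∘ g) := rfl

/-- The axioms. -/
structure Good {α : Type} (M : Str α) : Prop where
  refl : ∀ a, M.le a a
  trans : ∀ a b c, M.le a b → M.le b c → M.le a c
  antisymm : ∀ a b, M.le a b → M.le b a → a = b
  col : ∀ a b, M.le a b → M.col a = M.col b
  lev : ∀ a b, M.le a b → M.lev a ≤ M.lev b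

theorem Good.pull {α β : Type} {M : Str α} (hM : Good M) {f : β → α}
    (hf : Function.Injective f) : Good (M.pull f) :=
  ⟨fun _ => hM.refl _, fun _ _ _ => hM.trans _ _ _, fun _ _ h1 h2 => hf (hM.antisymm _ _ h1 h2),
    fun _ _ => hM.col _ _, fun _ _ => hM.lev _ _⟩

/-- A one-point type over the set `A`. -/
structure Typ (α : Type) where
  /-- the parameters -/
  A : α → Prop
  /-- the points below -/
  dn : α → Prop
  /-- the points above -/
  up : α → Prop
  /-- the points with an arrow to the new point -/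
  qi : α → Prop
  /-- the points with an arrow from the new point -/
  qo : α → Prop
  /-- the loop -/
  q : Prop
  /-- the colour -/
  c : Bool
  /-- the level -/
  l : ℕ∞

/-- Pulling back. -/
def Typ.pull {α β : Type} (t : Typ α) (f : β → α) : Typ β :=
  ⟨fun a => t.A (f a), fun a => t.dn (f a), fun a => t.up (f a), fun a => t.qi (f a),
    fun a => t.qo (f a), t.q, t.c, t.l⟩

/-- Consistent types. -/
structure Valid {α : Type} (M : Str α) (t : Typ α) : Prop where
  dnA : ∀ a, t.dn a → t.A a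
  upA : ∀ a, t.up a → t.A a
  dn_closed : ∀ a b, t.dn a → t.A b → M.le b a → t.dn b
  up_closed : ∀ a b, t.up a → t.A b → M.le a b → t.up b
  lt : ∀ a b, t.dn a → t.up b → M.le a b
  disj : ∀ a, t.dn a → ¬ t.up a
  dn_col : ∀ a, t.dn a → M.col a = t.c
  up_col : ∀ a, t.up a → M.col a = t.c
  dn_lev : ∀ a, t.dn a → M.lev a ≤ t.l
  up_lev : ∀ a, t.up a → t.l ≤ M.lev a

theorem Valid.pull {α β : Type} {M : Str α} {t : Typ α} (h : Valid M t) (f : β → α) :
    Valid (M.pull f) (t.pull f) :=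
  ⟨fun _ => h.dnA _, fun _ => h.upA _, fun _ _ => h.dn_closed _ _, fun _ _ => h.up_closed _ _,
    fun _ _ => h.lt _ _, fun _ => h.disj _, fun _ => h.dn_col _, fun _ => h.up_col _,
    fun _ => h.dn_lev _, fun _ => h.up_lev _⟩

/-- Realization of types. -/
structure Realizes {α : Type} (M : Str α) (t : Typ α) (b : α) : Prop where
  ne : ∀ a, t.A a → a ≠ b
  dn : ∀ a, t.A a → (M.le a b ↔ t.dn a)
  up : ∀ a, t.A a → (M.le b a ↔ t.up a)
  qi : ∀ a, t.A a → (M.Q a b ↔ t.qi a)
  qo : ∀ a, t.A a → (M.Q b a ↔ t.qo a)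
  q : M.Q b b ↔ t.q
  c : M.col b = t.c
  l : M.lev b = t.l

/-- Adjoining a realization of a type freely. -/
def adj {α : Type} (M : Str α) (t : Typ α) : Str (Option α) where
  le x y := match x, y with
    | some a, some b => M.le a b
    | some a, none => ∃ i, t.dn i ∧ M.le a i
    | none, some b => ∃ i, t.up i ∧ M.le i b
    | none, none => True
  Q x y := match x, y with
    | some a, some b => M.Q a b
    | some a, none => t.qi a
    | none, some b => t.qo b
    | none, none => t.q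
  col x := match x with
    | some a => M.col a
    | none => t.c
  lev x := match x with
    | some a => M.lev a
    | none => t.l

theorem adj_good {α : Type} {M : Str α} {t : Typ α} (hM : Good M) (ht : Valid M t) :
    Good (adj M t) where
  refl := by
    rintro (_ | a)
    · trivial
    · exact hM.refl a
  trans := by
    rintro (_ | a) (_ | b) (_ | c) h1 h2
    · trivial
    · exact h2
    · trivial
    · obtain ⟨i, hi, h⟩ := h1
      exact ⟨i, hi, hM.trans _ _ _ h h2⟩
    · exact h1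
    · obtain ⟨i, hi, h⟩ := h1
      obtain ⟨j, hj, h'⟩ := h2
      exact hM.trans _ _ _ h (hM.trans _ _ _ (ht.lt i j hi hj) h')
    · obtain ⟨i, hi, h⟩ := h2
      exact ⟨i, hi, hM.trans _ _ _ h1 h⟩
    · exact hM.trans _ _ _ h1 h2
  antisymm := by
    have key : ∀ a, ¬ ((adj M t).le none (some a) ∧ (adj M t).le (some a) none) := by
      rintro a ⟨⟨i, hi, h⟩, ⟨j, hj, h'⟩⟩
      have h1 : M.le i j := hM.trans _ _ _ h h'
      have h2 : M.le j i := ht.lt j i hj hi
      have := hM.antisymm _ _ h1 h2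
      subst this
      exact ht.disj _ hj hi
    rintro (_ | a) (_ | b) h1 h2
    · rfl
    · exact absurd ⟨h1, h2⟩ (key b)
    · exact absurd ⟨h2, h1⟩ (key a)
    · exact congrArg some (hM.antisymm _ _ h1 h2)
  col := by
    rintro (_ | a) (_ | b) h
    · rfl
    · obtain ⟨i, hi, h⟩ := h
      exact (ht.up_col i hi).symm.trans (hM.col _ _ h)
    · obtain ⟨i, hi, h⟩ := h
      exact (hM.col _ _ h).trans (ht.dn_col i hi)
    · exact hM.col _ _ h
  lev := by
    rintro (_ | a) (_ | b) h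
    · exact le_rfl
    · obtain ⟨i, hi, h⟩ := h
      exact (ht.up_lev i hi).trans (hM.lev _ _ h)
    · obtain ⟨i, hi, h⟩ := h
      exact (hM.lev _ _ h).trans (ht.dn_lev i hi)
    · exact hM.lev _ _ h

theorem adj_dn {α : Type} {M : Str α} {t : Typ α} (hM : Good M) (ht : Valid M t) (a : α)
    (ha : t.A a) : (adj M t).le (some a) none ↔ t.dn a := by
  constructor
  · rintro ⟨i, hi, h⟩
    exact ht.dn_closed i a hi ha h
  · exact fun h => ⟨a, h, hM.refl a⟩

theorem adj_up {α : Type} {M : Str α} {t : Typ α} (hM : Good M) (ht : Valid M t) (a : α)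
    (ha : t.A a) : (adj M t).le none (some a) ↔ t.up a := by
  constructor
  · rintro ⟨i, hi, h⟩
    exact ht.up_closed i a hi ha h
  · exact fun h => ⟨a, h, hM.refl a⟩

/-- Finite requests, for enumeration. -/
structure Req (V : Type) where
  /-- the parameters -/
  A : Finset V
  /-- the points below -/
  dn : Finset V
  /-- the points above -/
  up : Finset V
  /-- arrows in -/
  qi : Finset V
  /-- arrows out -/
  qo : Finset V
  /-- loop -/
  q : Bool
  /-- colour -/
  c : Bool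
  /-- level -/
  l : ℕ∞

/-- The type of a request. -/
def Req.typ {V : Type} (r : Req V) : Typ V :=
  ⟨(· ∈ r.A), (· ∈ r.dn), (· ∈ r.up), (· ∈ r.qi), (· ∈ r.qo), r.q = true, r.c, r.l⟩

instance {V : Type} [Countable V] : Countable (Req V) := by
  let f : Req V → Finset V × Finset V × Finset V × Finset V × Finset V × Bool × Bool × ℕ∞ :=
    fun r => (r.A, r.dn, r.up, r.qi, r.qo, r.q, r.c, r.l)
  have hf : Function.Injective f := by
    rintro ⟨⟩ ⟨⟩ h
    simp only [f, Prod.mk.injEq] at h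
    obtain ⟨h1, h2, h3, h4, h5, h6, h7, h8⟩ := h
    subst h1 h2 h3 h4 h5 h6 h7 h8
    rfl
  have : Countable ℕ∞ := inferInstanceAs (Countable (Option ℕ))
  exact hf.countable

section limit

variable {Y : Type}

/-- The rank of a point. -/
def rk : Y ⊕ ℕ → ℕ := Sum.elim (fun _ => 0) (fun m => m + 1)

/-- The points of rank at most `n`. -/
abbrev W (Y : Type) (n : ℕ) : Type := {v : Y ⊕ ℕ // rk v ≤ n}

/-- Points of infinite level are above points of infinite level of the base. -/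
def Inv (n : ℕ) (M : Str (Y ⊕ ℕ)) : Prop :=
  ∀ v, rk v ≤ n → M.lev v = ⊤ → ∃ y : Y, M.lev (Sum.inl y) = ⊤ ∧ M.le (Sum.inl y) v

/-- Validity of a request at a stage. -/
def ValidAt (n : ℕ) (M : Str (Y ⊕ ℕ)) (r : Req (Y ⊕ ℕ)) : Prop :=
  (∀ a ∈ r.A, rk a ≤ n) ∧ Valid (M.pull (Subtype.val : W Y n → Y ⊕ ℕ)) (r.typ.pull Subtype.val) ∧
    (r.l = ⊤ → ∃ a ∈ r.dn, M.lev a = ⊤) ∧ ∀ a ∈ r.dn, a ∈ r.A

theorem step (n : ℕ) (M : Str (Y ⊕ ℕ)) (hM : Good (M.pull (Subtype.val : W Y n → Y ⊕ ℕ)))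
    (hI : Inv n M) (r : Req (Y ⊕ ℕ)) :
    ∃ M' : Str (Y ⊕ ℕ), Good (M'.pull (Subtype.val : W Y (n + 1) → Y ⊕ ℕ)) ∧ Inv (n + 1) M' ∧
      M'.pull (Subtype.val : W Y n → Y ⊕ ℕ) = M.pull (Subtype.val : W Y n → Y ⊕ ℕ) ∧
      (ValidAt n M r → Realizes M' r.typ (Sum.inr n)) := by
  classical
  have main : ∀ r : Req (Y ⊕ ℕ), ValidAt n M r → ∃ M' : Str (Y ⊕ ℕ),
      Good (M'.pull (Subtype.val : W Y (n + 1) → Y ⊕ ℕ)) ∧ Inv (n + 1) M' ∧
      M'.pull (Subtype.val : W Y n → Y ⊕ ℕ) = M.pull (Subtype.val : W Y n → Y ⊕ ℕ) ∧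
      Realizes M' r.typ (Sum.inr n) := by
    rintro r ⟨hrA, hv, hl, hdA⟩
    let t := r.typ.pull (Subtype.val : W Y n → Y ⊕ ℕ)
    let K := adj (M.pull (Subtype.val : W Y n → Y ⊕ ℕ)) t
    have hK : Good K := adj_good hM hv
    let g : Y ⊕ ℕ → Option (W Y n) := fun v => if h : rk v ≤ n then some ⟨v, h⟩ else none
    have hg : ∀ (v : Y ⊕ ℕ) (h : rk v ≤ n), g v = some ⟨v, h⟩ := fun v h => dif_pos h
    have hgn : g (Sum.inr n) = none := dif_neg (by simp [rk])
    have hrank : ∀ v : Y ⊕ ℕ, rk v ≤ n + 1 → ¬ rk v ≤ n → v = Sum.inr n := by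
      rintro (y | m) h1 h2
      · exact absurd (Nat.zero_le n) h2
      · simp only [rk, Sum.elim_inr] at h1 h2
        congr 1
        omega
    refine ⟨K.pull g, ?_, ?_, ?_, ?_⟩
    · rw [Str.pull_pull]
      refine hK.pull ?_
      rintro ⟨v, hv⟩ ⟨w, hw⟩ h
      simp only [Function.comp_apply] at h
      by_cases h1 : rk v ≤ n <;> by_cases h2 : rk w ≤ n
      · rw [hg v h1, hg w h2] at h
        simpa using h
      · rw [hg v h1, hrank w hw h2, hgn] at h
        exact absurd h (by simp)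
      · rw [hg w h2, hrank v hv h1, hgn] at h
        exact absurd h (by simp)
      · exact Subtype.ext ((hrank v hv h1).trans (hrank w hw h2).symm)
    · intro v hv hlev
      by_cases h1 : rk v ≤ n
      · have h2 : M.lev v = ⊤ := by
          have : K.lev (g v) = ⊤ := hlev
          rwa [hg v h1] at this
        obtain ⟨y, h3, h4⟩ := hI v h1 h2
        refine ⟨y, ?_, ?_⟩
        · show K.lev (g (Sum.inl y)) = ⊤
          rw [hg _ (show rk (Sum.inl y : Y ⊕ ℕ) ≤ n from Nat.zero_le n)]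
          exact h3
        · show K.le (g (Sum.inl y)) (g v)
          rw [hg _ (show rk (Sum.inl y : Y ⊕ ℕ) ≤ n from Nat.zero_le n), hg v h1]
          exact h4
      · have e := hrank v hv h1
        subst e
        have h2 : r.l = ⊤ := by
          have : K.lev (g (Sum.inr n)) = ⊤ := hlev
          rwa [hgn] at this
        obtain ⟨a, ha, h3⟩ := hl h2
        obtain ⟨y, h4, h5⟩ := hI a (hrA a (hdA a ha)) h3
        refine ⟨y, ?_, ?_⟩
        · show K.lev (g (Sum.inl y)) = ⊤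
          rw [hg _ (show rk (Sum.inl y : Y ⊕ ℕ) ≤ n from Nat.zero_le n)]
          exact h4
        · show K.le (g (Sum.inl y)) (g (Sum.inr n))
          rw [hg _ (show rk (Sum.inl y : Y ⊕ ℕ) ≤ n from Nat.zero_le n), hgn]
          exact ⟨⟨a, hrA a (hdA a ha)⟩, ha, h5⟩
    · rw [Str.pull_pull]
      have : g ∘ (Subtype.val : W Y n → Y ⊕ ℕ) = some := by
        funext v
        exact hg v.1 v.2
      rw [this]
      rfl
    · refine ⟨?_, ?_, ?_, ?_, ?_, ?_, ?_, ?_⟩
      · rintro a ha rfl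
        have := hrA _ ha
        simp [rk] at this
      · intro a ha
        show K.le (g a) (g (Sum.inr n)) ↔ _
        rw [hgn, hg a (hrA a ha)]
        exact adj_dn hM hv ⟨a, hrA a ha⟩ ha
      · intro a ha
        show K.le (g (Sum.inr n)) (g a) ↔ _
        rw [hgn, hg a (hrA a ha)]
        exact adj_up hM hv ⟨a, hrA a ha⟩ ha
      · intro a ha
        show K.Q (g a) (g (Sum.inr n)) ↔ _
        rw [hgn, hg a (hrA a ha)]
        exact Iff.rfl
      · intro a ha
        show K.Q (g (Sum.inr n)) (g a) ↔ _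
        rw [hgn, hg a (hrA a ha)]
        exact Iff.rfl
      · show K.Q (g (Sum.inr n)) (g (Sum.inr n)) ↔ _
        rw [hgn]
        exact Iff.rfl
      · show K.col (g (Sum.inr n)) = _
        rw [hgn]
        rfl
      · show K.lev (g (Sum.inr n)) = _
        rw [hgn]
        rfl
  by_cases hv : ValidAt n M r
  · obtain ⟨M', a, b, c, d⟩ := main r hv
    exact ⟨M', a, b, c, fun _ => d⟩
  · obtain ⟨M', a, b, c, d⟩ := main ⟨∅, ∅, ∅, ∅, ∅, false, false, 0⟩ ⟨by simp, ⟨by simp [Req.typ, Typ.pull],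
      by simp [Req.typ, Typ.pull], by simp [Req.typ, Typ.pull], by simp [Req.typ, Typ.pull],
      by simp [Req.typ, Typ.pull], by simp [Req.typ, Typ.pull], by simp [Req.typ, Typ.pull],
      by simp [Req.typ, Typ.pull], by simp [Req.typ, Typ.pull], by simp [Req.typ, Typ.pull]⟩,
      by simp, by simp⟩
    exact ⟨M', a, b, c, fun h => absurd h hv⟩

/-- The base: an antichain of points of infinite level. -/
def base (QY : Y → Y → Prop) (cY : Y → Bool) : Str (Y ⊕ ℕ) where
  le a b := a = b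
  Q a b := match a, b with
    | Sum.inl y, Sum.inl y' => QY y y'
    | _, _ => False
  col a := match a with
    | Sum.inl y => cY y
    | Sum.inr _ => false
  lev a := match a with
    | Sum.inl _ => ⊤
    | Sum.inr _ => 0

/-- The stages. -/
noncomputable def stage (QY : Y → Y → Prop) (cY : Y → Bool) (ρ : ℕ → Req (Y ⊕ ℕ)) :
    (n : ℕ) → {M : Str (Y ⊕ ℕ) // Good (M.pull (Subtype.val : W Y n → Y ⊕ ℕ)) ∧ Inv n M}
  | 0 => ⟨base QY cY, ⟨fun _ => rfl, fun _ _ _ h1 h2 => Eq.trans h1 h2,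
      fun _ _ h _ => Subtype.ext h, fun _ _ h => congrArg (base QY cY).col h,
      fun _ _ h => le_of_eq (congrArg (base QY cY).lev h)⟩, fun v hv _ => by
        rcases v with y | m
        · exact ⟨y, rfl, rfl⟩
        · exact absurd hv (by simp [rk])⟩
  | (n + 1) => ⟨(step n (stage QY cY ρ n).1 (stage QY cY ρ n).2.1 (stage QY cY ρ n).2.2 (ρ n)).choose,
      (step n (stage QY cY ρ n).1 (stage QY cY ρ n).2.1 (stage QY cY ρ n).2.2
        (ρ n)).choose_spec.1,
      (step n (stage QY cY ρ n).1 (stage QY cY ρ n).2.1 (stage QY cY ρ n).2.2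
        (ρ n)).choose_spec.2.1⟩

/-- The extension property. -/
def Ext {α : Type} (M : Str α) : Prop :=
  ∀ r : Req α, Valid M r.typ → (r.l = ⊤ → ∃ a ∈ r.dn, M.lev a = ⊤) → ∃ b, Realizes M r.typ b

/-- The generic structure over a base. -/
theorem exists_generic [Countable Y] (QY : Y → Y → Prop) (cY : Y → Bool) :
    ∃ M : Str (Y ⊕ ℕ), Good M ∧ Ext M ∧
      (∀ v, M.lev v = ⊤ → ∃ y : Y, M.le (Sum.inl y) v) ∧
      (∀ y, M.lev (Sum.inl y) = ⊤) ∧ (∀ y, M.col (Sum.inl y) = cY y) ∧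
      (∀ y y', M.Q (Sum.inl y) (Sum.inl y') ↔ QY y y') ∧
      (∀ y y', M.le (Sum.inl y) (Sum.inl y') → y = y') := by
  classical
  have : Nonempty (Req (Y ⊕ ℕ)) := ⟨⟨∅, ∅, ∅, ∅, ∅, false, false, 0⟩⟩
  obtain ⟨f, hf⟩ := exists_surjective_nat (Req (Y ⊕ ℕ))
  let ρ : ℕ → Req (Y ⊕ ℕ) := fun n => f (Nat.unpair n).1
  let St := stage QY cY ρ
  have hSt : ∀ n, (St (n + 1)).1.pull (Subtype.val : W Y n → Y ⊕ ℕ) =
      (St n).1.pull (Subtype.val : W Y n → Y ⊕ ℕ) ∧
      (ValidAt n (St n).1 (ρ n) → Realizes (St (n + 1)).1 (ρ n).typ (Sum.inr n)) :=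
    fun n => (step n (St n).1 (St n).2.1 (St n).2.2 (ρ n)).choose_spec.2.2
  have pull_restrict : ∀ (n m : ℕ), n ≤ m → ∀ (A B : Str (Y ⊕ ℕ)),
      A.pull (Subtype.val : W Y m → Y ⊕ ℕ) = B.pull Subtype.val →
      A.pull (Subtype.val : W Y n → Y ⊕ ℕ) = B.pull Subtype.val := by
    intro n m hnm A B h
    have := congrArg (fun S => S.pull (fun v : W Y n => (⟨v.1, v.2.trans hnm⟩ : W Y m))) h
    exact this
  have agree : ∀ n m, n ≤ m → (St m).1.pull (Subtype.val : W Y n → Y ⊕ ℕ) =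
      (St n).1.pull Subtype.val := by
    intro n m hnm
    induction m, hnm using Nat.le_induction with
    | base => rfl
    | succ m hm ih =>
      rw [← ih]
      exact pull_restrict n m hm _ _ (hSt m).1
  have hle : ∀ n m a b, n ≤ m → rk a ≤ n → rk b ≤ n →
      ((St m).1.le a b ↔ (St n).1.le a b) := by
    intro n m a b hnm ha hb
    have := congrFun (congrFun (congrArg Str.le (agree n m hnm)) ⟨a, ha⟩) ⟨b, hb⟩
    exact iff_of_eq this
  have hQ : ∀ n m a b, n ≤ m → rk a ≤ n → rk b ≤ n →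
      ((St m).1.Q a b ↔ (St n).1.Q a b) := by
    intro n m a b hnm ha hb
    have := congrFun (congrFun (congrArg Str.Q (agree n m hnm)) ⟨a, ha⟩) ⟨b, hb⟩
    exact iff_of_eq this
  have hcol : ∀ n m a, n ≤ m → rk a ≤ n → (St m).1.col a = (St n).1.col a := by
    intro n m a hnm ha
    exact congrFun (congrArg Str.col (agree n m hnm)) ⟨a, ha⟩
  have hlev : ∀ n m a, n ≤ m → rk a ≤ n → (St m).1.lev a = (St n).1.lev a := by
    intro n m a hnm ha
    exact congrFun (congrArg Str.lev (agree n m hnm)) ⟨a, ha⟩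
  let M : Str (Y ⊕ ℕ) :=
    ⟨fun a b => (St (max (rk a) (rk b))).1.le a b, fun a b => (St (max (rk a) (rk b))).1.Q a b,
      fun a => (St (rk a)).1.col a, fun a => (St (rk a)).1.lev a⟩
  have hM : ∀ n, M.pull (Subtype.val : W Y n → Y ⊕ ℕ) = (St n).1.pull Subtype.val := by
    intro n
    have h1 : (M.pull (Subtype.val : W Y n → Y ⊕ ℕ)).le =
        ((St n).1.pull (Subtype.val : W Y n → Y ⊕ ℕ)).le := by
      funext a b
      exact propext (hle _ n a.1 b.1 (max_le a.2 b.2) (le_max_left _ _) (le_max_right _ _)).symm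
    have h2 : (M.pull (Subtype.val : W Y n → Y ⊕ ℕ)).Q =
        ((St n).1.pull (Subtype.val : W Y n → Y ⊕ ℕ)).Q := by
      funext a b
      exact propext (hQ _ n a.1 b.1 (max_le a.2 b.2) (le_max_left _ _) (le_max_right _ _)).symm
    have h3 : (M.pull (Subtype.val : W Y n → Y ⊕ ℕ)).col =
        ((St n).1.pull (Subtype.val : W Y n → Y ⊕ ℕ)).col := by
      funext a
      exact (hcol _ n a.1 a.2 le_rfl).symm
    have h4 : (M.pull (Subtype.val : W Y n → Y ⊕ ℕ)).lev =
        ((St n).1.pull (Subtype.val : W Y n → Y ⊕ ℕ)).lev := by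
      funext a
      exact (hlev _ n a.1 a.2 le_rfl).symm
    exact Str.ext h1 h2 h3 h4
  have gle : ∀ n a b, rk a ≤ n → rk b ≤ n → (M.le a b ↔ (St n).1.le a b) := by
    intro n a b ha hb
    exact iff_of_eq (congrFun (congrFun (congrArg Str.le (hM n)) ⟨a, ha⟩) ⟨b, hb⟩)
  have gQ : ∀ n a b, rk a ≤ n → rk b ≤ n → (M.Q a b ↔ (St n).1.Q a b) := by
    intro n a b ha hb
    exact iff_of_eq (congrFun (congrFun (congrArg Str.Q (hM n)) ⟨a, ha⟩) ⟨b, hb⟩)
  have gcol : ∀ n a, rk a ≤ n → M.col a = (St n).1.col a := by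
    intro n a ha
    exact congrFun (congrArg Str.col (hM n)) ⟨a, ha⟩
  have glev : ∀ n a, rk a ≤ n → M.lev a = (St n).1.lev a := by
    intro n a ha
    exact congrFun (congrArg Str.lev (hM n)) ⟨a, ha⟩
  have hgood : ∀ n, Good (M.pull (Subtype.val : W Y n → Y ⊕ ℕ)) := fun n => by
    rw [hM n]
    exact (St n).2.1
  refine ⟨M, ?_, ?_, ?_, ?_, ?_, ?_, ?_⟩
  · refine ⟨fun a => ?_, fun a b c h1 h2 => ?_, fun a b h1 h2 => ?_, fun a b h => ?_,
      fun a b h => ?_⟩
    · exact (hgood (rk a)).refl ⟨a, le_rfl⟩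
    · exact (hgood (max (rk a) (max (rk b) (rk c)))).trans ⟨a, le_max_left _ _⟩
        ⟨b, (le_max_left _ _).trans (le_max_right _ _)⟩
        ⟨c, (le_max_right _ _).trans (le_max_right _ _)⟩ h1 h2
    · exact congrArg Subtype.val ((hgood (max (rk a) (rk b))).antisymm ⟨a, le_max_left _ _⟩
        ⟨b, le_max_right _ _⟩ h1 h2)
    · exact (hgood (max (rk a) (rk b))).col ⟨a, le_max_left _ _⟩ ⟨b, le_max_right _ _⟩ h
    · exact (hgood (max (rk a) (rk b))).lev ⟨a, le_max_left _ _⟩ ⟨b, le_max_right _ _⟩ h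
  · intro r hv hl
    obtain ⟨m, hm⟩ := hf r
    set n := Nat.pair m (r.A.sup rk) with hn
    have hρ : ρ n = r := by simp only [ρ, hn, Nat.unpair_pair, hm]
    have hbd : ∀ a ∈ r.A, rk a ≤ n := fun a ha =>
      (Finset.le_sup (f := rk) ha).trans (Nat.right_le_pair _ _)
    have hdA : ∀ a ∈ r.dn, a ∈ r.A := fun a ha => hv.dnA a ha
    have hval : ValidAt n (St n).1 (ρ n) := by
      rw [hρ]
      refine ⟨hbd, ?_, fun h => ?_, hdA⟩
      · rw [← hM n]
        exact hv.pull _
      · obtain ⟨a, ha, h1⟩ := hl h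
        exact ⟨a, ha, by rw [← glev n a (hbd a (hdA a ha))]; exact h1⟩
    have h := (hSt n).2 hval
    rw [hρ] at h
    have hrn : rk (Sum.inr n : Y ⊕ ℕ) ≤ n + 1 := le_rfl
    refine ⟨Sum.inr n, h.ne, fun a ha => ?_, fun a ha => ?_, fun a ha => ?_, fun a ha => ?_,
      ?_, ?_, ?_⟩
    · rw [gle (n + 1) _ _ ((hbd a ha).trans (Nat.le_succ n)) hrn]
      exact h.dn a ha
    · rw [gle (n + 1) _ _ hrn ((hbd a ha).trans (Nat.le_succ n))]
      exact h.up a ha
    · rw [gQ (n + 1) _ _ ((hbd a ha).trans (Nat.le_succ n)) hrn]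
      exact h.qi a ha
    · rw [gQ (n + 1) _ _ hrn ((hbd a ha).trans (Nat.le_succ n))]
      exact h.qo a ha
    · rw [gQ (n + 1) _ _ hrn hrn]
      exact h.q
    · rw [gcol (n + 1) _ hrn]
      exact h.c
    · rw [glev (n + 1) _ hrn]
      exact h.l
  · intro v hv
    rw [glev (rk v) v le_rfl] at hv
    obtain ⟨y, h1, h2⟩ := (St (rk v)).2.2 v le_rfl hv
    exact ⟨y, (gle (rk v) _ _ (Nat.zero_le _) le_rfl).2 h2⟩
  · intro y
    rw [glev 0 _ (Nat.zero_le _)]
    rfl
  · intro y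
    rw [gcol 0 _ (Nat.zero_le _)]
    rfl
  · intro y y'
    rw [gQ 0 _ _ (Nat.zero_le _) (Nat.zero_le _)]
    exact Iff.rfl
  · intro y y' h
    rw [gle 0 _ _ (Nat.zero_le _) (Nat.zero_le _)] at h
    exact Sum.inl_injective h

end limit

end Pool.Agent.X224.BE
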