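import Pool.Agent.X224.BE.Transfer

/-!
# Generic partial orders with levels: elementary embeddings and special models
-/

set_option autoImplicit false

open scoped FirstOrder

namespace Pool.Agent.X224.BE

/-- There is a point of infinite level and of colour `c`. -/
def hasTop {α : Type} (M : Str α) (c : Bool) : Prop := ∃ x, M.lev x = ⊤ ∧ M.col x = c

theorem exists_fun {β : Type} (Inv : ∀ k, (Fin k → β) → Prop) (h0 : ∀ f, Inv 0 f)
    (hs : ∀ k f, Inv k f → ∃ z, Inv (k + 1) (Fin.snoc f z : Fin (k + 1) → β)) :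
    ∃ F : ℕ → β, ∀ k, Inv k (fun i => F i) := by
  let seq : (k : ℕ) → {f : Fin k → β // Inv k f} := fun k => Nat.rec ⟨Fin.elim0, h0 _⟩
    (fun k f => ⟨Fin.snoc f.1 (hs k f.1 f.2).choose, (hs k f.1 f.2).choose_spec⟩) k
  have hseq : ∀ k, (seq (k + 1)).1 = (Fin.snoc (seq k).1 (hs k (seq k).1 (seq k).2).choose :
      Fin (k + 1) → β) := fun k => rfl
  let F : ℕ → β := fun k => (seq (k + 1)).1 (Fin.last k)
  have hF : ∀ k (i : Fin k), (seq k).1 i = F i := by
    intro k
    induction k with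
    | zero => exact fun i => i.elim0
    | succ k ih =>
      intro i
      refine Fin.lastCases ?_ (fun i => ?_) i
      · rfl
      · rw [hseq]
        simp only [Fin.snoc_castSucc]
        exact ih i
  refine ⟨F, fun k => ?_⟩
  have : (fun i : Fin k => F i) = (seq k).1 := funext fun i => (hF k i).symm
  rw [this]
  exact (seq k).2

theorem embed {β : Type} [Nonempty β] {M : Str ℕ} {N : Str β} (hM : Good M) (hN : Good N)
    (eN : EP N) (hpat : ∀ c, hasTop M c → hasTop N c) : ∃ F : ℕ → β, Same ⊤ M N id F := by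
  classical
  have hd : ∀ c, ∃ d : β, hasTop N c → N.lev d = ⊤ ∧ N.col d = c := by
    intro c
    by_cases h : hasTop N c
    · obtain ⟨x, hx⟩ := h
      exact ⟨x, fun _ => hx⟩
    · exact ⟨Classical.arbitrary β, fun h' => absurd h' h⟩
  choose d hd using hd
  let Inv : ∀ k, (Fin k → β) → Prop := fun k f =>
    Same ⊤ M N (fun i : Fin k => (i : ℕ)) f ∧
    (∀ (i : Fin k) c, hasTop N c → M.lev i = ⊤ → M.col i = c → N.le (d c) (f i)) ∧
    (∀ (i : Fin k) c, hasTop N c → ¬ N.le (f i) (d c)) ∧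
    (∀ (i : Fin k) c, hasTop N c → M.lev i ≠ ⊤ → ¬ N.le (d c) (f i))
  obtain ⟨F, hF⟩ := exists_fun Inv (fun f => ⟨⟨fun i => i.elim0, fun i => i.elim0,
    fun i => i.elim0, fun i => i.elim0⟩, fun i => i.elim0, fun i => i.elim0, fun i => i.elim0⟩) (by
    rintro k f ⟨hS, h1, h2, h3⟩
    have hlev : ∀ i : Fin k, M.lev i = N.lev (f i) := fun i => by
      simpa using hS.lev i
    have hinj : ∀ i j : Fin k, f i = f j → i = j := fun i j h =>
      Fin.ext ((hS.eq_iff hM hN i j).2 h)
    let t : Typ β := ⟨fun b => (∃ i, f i = b) ∨ ∃ c, hasTop N c ∧ d c = b,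
      fun b => (∃ i : Fin k, f i = b ∧ M.le i k) ∨
        ∃ c, hasTop N c ∧ d c = b ∧ M.lev k = ⊤ ∧ M.col k = c,
      fun b => ∃ i : Fin k, f i = b ∧ M.le k i,
      fun b => ∃ i : Fin k, f i = b ∧ M.Q i k,
      fun b => ∃ i : Fin k, f i = b ∧ M.Q k i, M.Q k k, M.col k, M.lev k⟩
    have ht : Valid N t := by
      refine ⟨?_, ?_, ?_, ?_, ?_, ?_, ?_, ?_, ?_, ?_⟩
      · rintro b (⟨i, h, -⟩ | ⟨c, hc, h, -⟩)
        · exact Or.inl ⟨i, h⟩
        · exact Or.inr ⟨c, hc, h⟩
      · rintro b ⟨i, h, -⟩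
        exact Or.inl ⟨i, h⟩
      · rintro a b (⟨i, rfl, hi⟩ | ⟨c, hc, rfl, hk, hkc⟩) (⟨j, rfl⟩ | ⟨c', hc', rfl⟩) hab
        · exact Or.inl ⟨j, rfl, hM.trans _ _ _ ((hS.le j i).2 hab) hi⟩
        · right
          have hi1 : M.lev i = ⊤ := by
            by_contra h
            exact h3 i c' hc' h hab
          have hi2 : M.col i = c' := (hS.col i).trans ((hN.col _ _ hab).symm.trans (hd c' hc').2)
          refine ⟨c', hc', rfl, ?_, ?_⟩
          · exact top_le_iff.1 (hi1 ▸ hM.lev _ _ hi)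
          · exact (hM.col _ _ hi).symm.trans hi2
        · exact absurd hab (h2 j c hc)
        · right
          have : c' = c := (hd c' hc').2.symm.trans ((hN.col _ _ hab).trans (hd c hc).2)
          subst this
          exact ⟨c', hc', rfl, hk, hkc⟩
      · rintro a b ⟨i, rfl, hi⟩ (⟨j, rfl⟩ | ⟨c', hc', rfl⟩) hab
        · exact ⟨j, rfl, hM.trans _ _ _ hi ((hS.le i j).2 hab)⟩
        · exact absurd hab (h2 i c' hc')
      · rintro a b (⟨i, rfl, hi⟩ | ⟨c, hc, rfl, hk, hkc⟩) ⟨j, rfl, hj⟩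
        · exact (hS.le i j).1 (hM.trans _ _ _ hi hj)
        · refine h1 j c hc ?_ ?_
          · exact top_le_iff.1 (hk ▸ hM.lev _ _ hj)
          · exact (hM.col _ _ hj).symm.trans hkc
      · rintro a (⟨i, rfl, hi⟩ | ⟨c, hc, rfl, hk, hkc⟩) ⟨j, hj1, hj⟩
        · have := hinj j i hj1
          subst this
          have := hM.antisymm _ _ hi hj
          exact absurd this j.2.ne
        · exact h2 j c hc (by rw [hj1]; exact hN.refl _)
      · rintro a (⟨i, rfl, hi⟩ | ⟨c, hc, rfl, hk, hkc⟩)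
        · exact (hS.col i).symm.trans (hM.col _ _ hi)
        · exact (hd c hc).2.trans hkc.symm
      · rintro a ⟨i, rfl, hi⟩
        exact (hS.col i).symm.trans (hM.col _ _ hi).symm
      · rintro a (⟨i, rfl, hi⟩ | ⟨c, hc, rfl, hk, hkc⟩)
        · rw [← hlev i]
          exact hM.lev _ _ hi
        · show _ ≤ M.lev k
          rw [hk]
          exact le_top
      · rintro a ⟨i, rfl, hi⟩
        rw [← hlev i]
        exact hM.lev _ _ hi
    have hfin : {a | t.A a}.Finite := by
      have : {a | t.A a} ⊆ Set.range f ∪ Set.range d := by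
        rintro a (⟨i, rfl⟩ | ⟨c, -, rfl⟩)
        · exact Or.inl ⟨i, rfl⟩
        · exact Or.inr ⟨c, rfl⟩
      exact ((Set.finite_range f).union (Set.finite_range d)).subset this
    obtain ⟨z, hz⟩ := ext_of_ep hN eN t hfin ht (by
      intro hl
      have h4 : hasTop N (M.col k) := hpat _ ⟨k, hl, rfl⟩
      exact ⟨d (M.col k), Or.inr ⟨_, h4, rfl, hl, rfl⟩, (hd _ h4).1⟩)
    have hA1 : ∀ i, t.A (f i) := fun i => Or.inl ⟨i, rfl⟩
    have hA2 : ∀ c, hasTop N c → t.A (d c) := fun c hc => Or.inr ⟨c, hc, rfl⟩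
    have cdn : ∀ i : Fin k, t.dn (f i) ↔ M.le i k := by
      intro i
      constructor
      · rintro (⟨j, hj, h⟩ | ⟨c, hc, h, -⟩)
        · rw [← hinj j i hj]; exact h
        · exact absurd (by rw [h]; exact hN.refl _) (h2 i c hc)
      · exact fun h => Or.inl ⟨i, rfl, h⟩
    have cup : ∀ i : Fin k, t.up (f i) ↔ M.le k i := by
      intro i
      constructor
      · rintro ⟨j, hj, h⟩
        rw [← hinj j i hj]; exact h
      · exact fun h => ⟨i, rfl, h⟩
    have cqi : ∀ i : Fin k, t.qi (f i) ↔ M.Q i k := by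
      intro i
      constructor
      · rintro ⟨j, hj, h⟩
        rw [← hinj j i hj]; exact h
      · exact fun h => ⟨i, rfl, h⟩
    have cqo : ∀ i : Fin k, t.qo (f i) ↔ M.Q k i := by
      intro i
      constructor
      · rintro ⟨j, hj, h⟩
        rw [← hinj j i hj]; exact h
      · exact fun h => ⟨i, rfl, h⟩
    refine ⟨z, ⟨?_, ?_, ?_, ?_⟩, ?_, ?_, ?_⟩
    · intro i j
      refine Fin.lastCases ?_ (fun i => ?_) i <;> refine Fin.lastCases ?_ (fun j => ?_) j
      · simp only [Fin.snoc_last, Fin.val_last]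
        exact iff_of_true (hM.refl _) (hN.refl _)
      · simp only [Fin.snoc_last, Fin.snoc_castSucc, Fin.val_last, Fin.val_castSucc]
        exact (cup j).symm.trans (hz.up _ (hA1 j)).symm
      · simp only [Fin.snoc_last, Fin.snoc_castSucc, Fin.val_last, Fin.val_castSucc]
        exact (cdn i).symm.trans (hz.dn _ (hA1 i)).symm
      · simp only [Fin.snoc_castSucc, Fin.val_castSucc]
        exact hS.le i j
    · intro i j
      refine Fin.lastCases ?_ (fun i => ?_) i <;> refine Fin.lastCases ?_ (fun j => ?_) j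
      · simp only [Fin.snoc_last, Fin.val_last]
        exact hz.q.symm
      · simp only [Fin.snoc_last, Fin.snoc_castSucc, Fin.val_last, Fin.val_castSucc]
        exact (cqo j).symm.trans (hz.qo _ (hA1 j)).symm
      · simp only [Fin.snoc_last, Fin.snoc_castSucc, Fin.val_last, Fin.val_castSucc]
        exact (cqi i).symm.trans (hz.qi _ (hA1 i)).symm
      · simp only [Fin.snoc_castSucc, Fin.val_castSucc]
        exact hS.Q i j
    · intro i
      refine Fin.lastCases ?_ (fun i => ?_) i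
      · simp only [Fin.snoc_last, Fin.val_last]
        exact hz.c.symm
      · simp only [Fin.snoc_castSucc, Fin.val_castSucc]
        exact hS.col i
    · intro i
      refine Fin.lastCases ?_ (fun i => ?_) i
      · simp only [Fin.snoc_last, Fin.val_last]
        rw [hz.l]
      · simp only [Fin.snoc_castSucc, Fin.val_castSucc]
        exact hS.lev i
    · intro i c hc
      refine Fin.lastCases ?_ (fun i => ?_) i
      · simp only [Fin.snoc_last, Fin.val_last]
        intro hk hkc
        exact (hz.dn _ (hA2 c hc)).2 (Or.inr ⟨c, hc, rfl, hk, hkc⟩)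
      · simp only [Fin.snoc_castSucc, Fin.val_castSucc]
        exact h1 i c hc
    · intro i c hc
      refine Fin.lastCases ?_ (fun i => ?_) i
      · simp only [Fin.snoc_last]
        intro h
        obtain ⟨j, hj, -⟩ := (hz.up _ (hA2 c hc)).1 h
        exact h2 j c hc (by rw [hj]; exact hN.refl _)
      · simp only [Fin.snoc_castSucc]
        exact h2 i c hc
    · intro i c hc
      refine Fin.lastCases ?_ (fun i => ?_) i
      · simp only [Fin.snoc_last, Fin.val_last]
        intro hk h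
        rcases (hz.dn _ (hA2 c hc)).1 h with ⟨j, hj, -⟩ | ⟨c', -, -, h4, -⟩
        · exact h2 j c hc (by rw [hj]; exact hN.refl _)
        · exact hk h4
      · simp only [Fin.snoc_castSucc, Fin.val_castSucc]
        exact h3 i c hc)
  refine ⟨F, ⟨fun i j => ?_, fun i j => ?_, fun i => ?_, fun i => ?_⟩⟩
  · exact (hF (max i j + 1)).1.le ⟨i, by omega⟩ ⟨j, by omega⟩
  · exact (hF (max i j + 1)).1.Q ⟨i, by omega⟩ ⟨j, by omega⟩
  · exact (hF (i + 1)).1.col ⟨i, by omega⟩
  · exact (hF (i + 1)).1.lev ⟨i, by omega⟩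

/-- The extension property is invariant under isomorphisms. -/
theorem EP.pull {α β : Type} {M : Str α} (h : EP M) (e : β ≃ α) : EP (M.pull e) := by
  intro n γ N hN ι _ f g H w
  obtain ⟨z, hz⟩ := h n γ N hN ι (e ∘ f) g ⟨H.le, H.Q, H.col, H.lev⟩ w
  refine ⟨e.symm z, ?_⟩
  have e1 : e ∘ oc f (e.symm z) = oc (e ∘ f) z := by
    funext o
    cases o with
    | none => exact e.apply_symm_apply z
    | some i => rfl
  have h1 : Same n M N (e ∘ oc f (e.symm z)) (oc g w) := by rw [e1]; exact hz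
  exact ⟨h1.le, h1.Q, h1.col, h1.lev⟩

/-- Models on the natural numbers with a prescribed set of minimal points of infinite level. -/
theorem exists_model (Y : Type) [Countable Y] (QY : Y → Y → Prop) (cY : Y → Bool) :
    ∃ (S : Str ℕ) (y : Y → ℕ), Function.Injective y ∧ Good S ∧ EP S ∧
      (∀ v, S.lev v = ⊤ → ∃ a, S.le (y a) v) ∧ (∀ a, S.lev (y a) = ⊤) ∧
      (∀ a, S.col (y a) = cY a) ∧ (∀ a b, S.Q (y a) (y b) ↔ QY a b) ∧
      (∀ a b, S.le (y a) (y b) → a = b) := by
  obtain ⟨M, hM, hE, h1, h2, h3, h4, h5⟩ := exists_generic QY cY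
  obtain ⟨e⟩ : Nonempty (ℕ ≃ Y ⊕ ℕ) := nonempty_equiv_of_countable
  refine ⟨M.pull e, fun a => e.symm (Sum.inl a), ?_, hM.pull e.injective,
    (ep_of_ext hM hE).pull e, ?_, ?_, ?_, ?_, ?_⟩
  · exact e.symm.injective.comp Sum.inl_injective
  · intro v hv
    obtain ⟨a, ha⟩ := h1 (e v) hv
    refine ⟨a, ?_⟩
    show M.le (e (e.symm (Sum.inl a))) (e v)
    rw [e.apply_symm_apply]
    exact ha
  · intro a
    show M.lev (e (e.symm (Sum.inl a))) = ⊤
    rw [e.apply_symm_apply]
    exact h2 a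
  · intro a
    show M.col (e (e.symm (Sum.inl a))) = _
    rw [e.apply_symm_apply]
    exact h3 a
  · intro a b
    show M.Q (e (e.symm (Sum.inl a))) (e (e.symm (Sum.inl b))) ↔ _
    rw [e.apply_symm_apply, e.apply_symm_apply]
    exact h4 a b
  · intro a b h
    have h' : M.le (e (e.symm (Sum.inl a))) (e (e.symm (Sum.inl b))) := h
    rw [e.apply_symm_apply, e.apply_symm_apply] at h'
    exact h5 a b h'

end Pool.Agent.X224.BE
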