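import Pool.Agent.X224.BE.Basic

/-!
# Generic partial orders with levels: back and forth, transfer to elementarily equivalent structures
-/

set_option autoImplicit false

open scoped FirstOrder

namespace Pool.Agent.X224.BE

/-- The relation symbols. -/
inductive Rel : ℕ → Type
  | le : Rel 2
  | Q : Rel 2
  | col : Rel 1
  | lev (n : ℕ) : Rel 1

/-- The language. -/
@[reducible] def Lg : FirstOrder.Language.{0, 0} := ⟨fun _ => Empty, Rel⟩

/-- The relations of an `Lg`-structure are those of `M`. -/
structure Rep {α : Type} [Lg.Structure α] (M : Str α) : Prop where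
  le : ∀ v : Fin 2 → α, FirstOrder.Language.Structure.RelMap (L := Lg) (n := 2) Rel.le v ↔
    M.le (v 0) (v 1)
  Q : ∀ v : Fin 2 → α, FirstOrder.Language.Structure.RelMap (L := Lg) (n := 2) Rel.Q v ↔
    M.Q (v 0) (v 1)
  col : ∀ v : Fin 1 → α, FirstOrder.Language.Structure.RelMap (L := Lg) (n := 1) Rel.col v ↔
    M.col (v 0) = true
  lev : ∀ (n : ℕ) (v : Fin 1 → α),
    FirstOrder.Language.Structure.RelMap (L := Lg) (n := 1) (Rel.lev n) v ↔
      (n : ℕ∞) < M.lev (v 0)

/-- The `Lg`-structure of `M`. -/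
@[reducible] def Str.toStructure {α : Type} (M : Str α) : Lg.Structure α where
  funMap := fun f => Empty.elim f
  RelMap := fun r v => match r with
    | .le => M.le (v 0) (v 1)
    | .Q => M.Q (v 0) (v 1)
    | .col => M.col (v 0) = true
    | .lev n => (n : ℕ∞) < M.lev (v 0)

theorem rep_toStructure {α : Type} (M : Str α) : @Rep α M.toStructure M :=
  letI := M.toStructure
  ⟨fun _ => Iff.rfl, fun _ => Iff.rfl, fun _ => Iff.rfl, fun _ _ => Iff.rfl⟩

/-- Tuples with the same type, with levels up to `n`. -/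
structure Same (n : ℕ∞) {α β κ : Type} (M : Str α) (N : Str β) (f : κ → α) (g : κ → β) :
    Prop where
  le : ∀ i j, M.le (f i) (f j) ↔ N.le (g i) (g j)
  Q : ∀ i j, M.Q (f i) (f j) ↔ N.Q (g i) (g j)
  col : ∀ i, M.col (f i) = N.col (g i)
  lev : ∀ i, min (M.lev (f i)) n = min (N.lev (g i)) n

section same

variable {n : ℕ∞} {α β γ κ κ' : Type} {M : Str α} {N : Str β} {P : Str γ} {f : κ → α} {g : κ → β}
  {h : κ → γ}

theorem Same.comp (H : Same n M N f g) (e : κ' → κ) : Same n M N (f ∘ e) (g ∘ e) :=
  ⟨fun _ _ => H.le _ _, fun _ _ => H.Q _ _, fun _ => H.col _, fun _ => H.lev _⟩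

theorem Same.symm (H : Same n M N f g) : Same n N M g f :=
  ⟨fun _ _ => (H.le _ _).symm, fun _ _ => (H.Q _ _).symm, fun _ => (H.col _).symm,
    fun _ => (H.lev _).symm⟩

theorem Same.trans (H : Same n M N f g) (H' : Same n N P g h) : Same n M P f h :=
  ⟨fun _ _ => (H.le _ _).trans (H'.le _ _), fun _ _ => (H.Q _ _).trans (H'.Q _ _),
    fun _ => (H.col _).trans (H'.col _), fun _ => (H.lev _).trans (H'.lev _)⟩

theorem Same.mono {m : ℕ∞} (H : Same n M N f g) (hm : m ≤ n) : Same m M N f g :=
  ⟨H.le, H.Q, H.col, fun i => by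
    have := congrArg (fun x => min x m) (H.lev i)
    simpa only [min_assoc, min_eq_right hm] using this⟩

theorem Same.eq_iff (H : Same n M N f g) (hM : Good M) (hN : Good N) (i j : κ) :
    f i = f j ↔ g i = g j := by
  constructor
  · intro e
    refine hN.antisymm _ _ ((H.le _ _).1 ?_) ((H.le _ _).1 ?_)
    · rw [e]; exact hM.refl _
    · rw [e]; exact hM.refl _
  · intro e
    refine hM.antisymm _ _ ((H.le _ _).2 ?_) ((H.le _ _).2 ?_)
    · rw [e]; exact hN.refl _
    · rw [e]; exact hN.refl _

end same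

/-- Adding a point to a tuple. -/
def oc {α κ : Type} (x : κ → α) (a : α) : Option κ → α := fun o => o.elim a x

/-- The extension property with respect to types with levels up to `n`, for all `n`. -/
def EP {α : Type} (M : Str α) : Prop :=
  ∀ (n : ℕ) (β : Type) (N : Str β), Good N → ∀ (ι : Type) [Finite ι] (f : ι → α) (g : ι → β),
    Same n M N f g → ∀ w : β, ∃ z : α, Same n M N (oc f z) (oc g w)

theorem ep_of_ext {α : Type} {M : Str α} (hM : Good M) (hE : Ext M) : EP M := by
  classical
  intro n β N hN ι _ f g H w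
  cases nonempty_fintype ι
  by_cases hw : ∃ i, g i = w
  · obtain ⟨i, rfl⟩ := hw
    refine ⟨f i, ?_⟩
    have h1 := H.comp (fun o : Option ι => o.elim i id)
    have e1 : f ∘ (fun o : Option ι => o.elim i id) = oc f (f i) := by
      funext o; cases o <;> rfl
    have e2 : g ∘ (fun o : Option ι => o.elim i id) = oc g (g i) := by
      funext o; cases o <;> rfl
    rwa [e1, e2] at h1
  · push Not at hw
    have heq := H.eq_iff hM hN
    let dn : Finset α := (Finset.univ.filter fun i => N.le (g i) w).image f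
    let up : Finset α := (Finset.univ.filter fun i => N.le w (g i)).image f
    let qi : Finset α := (Finset.univ.filter fun i => N.Q (g i) w).image f
    let qo : Finset α := (Finset.univ.filter fun i => N.Q w (g i)).image f
    have mem : ∀ (p : β → Prop) [DecidablePred p] (i : ι),
        f i ∈ (Finset.univ.filter fun i => p (g i)).image f ↔ p (g i) := by
      intro p _ i
      simp only [Finset.mem_image, Finset.mem_filter, Finset.mem_univ, true_and]
      constructor
      · rintro ⟨j, hj, h⟩
        rwa [← (heq j i).1 h]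
      · exact fun h => ⟨i, h, rfl⟩
    have hdn : ∀ i, f i ∈ dn ↔ N.le (g i) w := fun i => mem (fun b => N.le b w) i
    have hup : ∀ i, f i ∈ up ↔ N.le w (g i) := fun i => mem (fun b => N.le w b) i
    have hqi : ∀ i, f i ∈ qi ↔ N.Q (g i) w := fun i => mem (fun b => N.Q b w) i
    have hqo : ∀ i, f i ∈ qo ↔ N.Q w (g i) := fun i => mem (fun b => N.Q w b) i
    have dn_ex : ∀ a ∈ dn, ∃ i, f i = a := by
      intro a ha
      obtain ⟨i, -, hi⟩ := Finset.mem_image.1 ha
      exact ⟨i, hi⟩
    have up_ex : ∀ a ∈ up, ∃ i, f i = a := by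
      intro a ha
      obtain ⟨i, -, hi⟩ := Finset.mem_image.1 ha
      exact ⟨i, hi⟩
    -- the level
    obtain ⟨l, hl1, hl2, hl3, hl4⟩ : ∃ l : ℕ∞, min l n = min (N.lev w) n ∧
        (∀ a ∈ dn, M.lev a ≤ l) ∧ (∀ a ∈ up, l ≤ M.lev a) ∧
        (l = ⊤ → ∃ a ∈ dn, M.lev a = ⊤) := by
      rcases lt_or_ge (N.lev w) n with hlt | hge
      · refine ⟨N.lev w, rfl, ?_, ?_, fun h => absurd hlt (by rw [h]; exact not_top_lt)⟩
        · intro a ha
          obtain ⟨i, rfl⟩ := dn_ex a ha
          have h1 := hN.lev _ _ ((hdn i).1 ha)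
          have h2 := H.lev i
          rw [min_eq_left (h1.trans hlt.le)] at h2
          rcases min_choice (M.lev (f i)) n with h3 | h3
          · rw [h3] at h2
            rw [h2]
            exact h1
          · rw [h3] at h2
            rw [← h2] at h1
            exact absurd (h1.trans_lt hlt) (lt_irrefl _)
        · intro a ha
          obtain ⟨i, rfl⟩ := up_ex a ha
          have h1 := hN.lev _ _ ((hup i).1 ha)
          have h2 : min (N.lev w) n ≤ min (N.lev (g i)) n := min_le_min h1 le_rfl
          rw [← H.lev i, min_eq_left hlt.le] at h2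
          exact h2.trans (min_le_left _ _)
      · refine ⟨max n (dn.sup M.lev), ?_, ?_, ?_, ?_⟩
        · rw [min_eq_right (le_max_left _ _), min_eq_right hge]
        · intro a ha
          exact (Finset.le_sup ha).trans (le_max_right _ _)
        · intro a ha
          obtain ⟨i, rfl⟩ := up_ex a ha
          have h1 := hN.lev _ _ ((hup i).1 ha)
          refine max_le ?_ (Finset.sup_le fun b hb => ?_)
          · have h2 := H.lev i
            rw [min_eq_right (hge.trans h1)] at h2
            rw [← h2]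
            exact min_le_left _ _
          · obtain ⟨j, rfl⟩ := dn_ex b hb
            exact hM.lev _ _ ((H.le j i).2 (hN.trans _ _ _ ((hdn j).1 hb) ((hup i).1 ha)))
        · intro h
          have h1 : dn.sup M.lev = ⊤ := by
            rcases max_choice (n : ℕ∞) (dn.sup M.lev) with h2 | h2
            · rw [h2] at h
              exact absurd h (ENat.coe_ne_top n)
            · rw [← h2, h]
          have hne : dn.Nonempty := by
            rw [Finset.nonempty_iff_ne_empty]
            intro h2
            rw [h2, Finset.sup_empty] at h1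
            exact absurd h1 (by simp)
          obtain ⟨a, ha, h2⟩ := Finset.exists_mem_eq_sup dn hne M.lev
          exact ⟨a, ha, by rw [← h2, h1]⟩
    have hA : ∀ i, f i ∈ (Finset.univ : Finset ι).image f := fun i =>
      Finset.mem_image_of_mem _ (Finset.mem_univ _)
    have hA' : ∀ a ∈ (Finset.univ : Finset ι).image f, ∃ i, f i = a := by
      intro a ha
      obtain ⟨i, -, hi⟩ := Finset.mem_image.1 ha
      exact ⟨i, hi⟩
    obtain ⟨z, hz⟩ := hE ⟨(Finset.univ : Finset ι).image f, dn, up, qi, qo, decide (N.Q w w),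
      N.col w, l⟩ ⟨fun a ha => by
        obtain ⟨i, rfl⟩ := dn_ex a ha
        exact hA i, fun a ha => by
        obtain ⟨i, rfl⟩ := up_ex a ha
        exact hA i, fun a b ha hb hab => by
        obtain ⟨i, rfl⟩ := dn_ex a ha
        obtain ⟨j, rfl⟩ := hA' b hb
        exact (hdn j).2 (hN.trans _ _ _ ((H.le _ _).1 hab) ((hdn i).1 ha)), fun a b ha hb hab => by
        obtain ⟨i, rfl⟩ := up_ex a ha
        obtain ⟨j, rfl⟩ := hA' b hb
        exact (hup j).2 (hN.trans _ _ _ ((hup i).1 ha) ((H.le _ _).1 hab)), fun a b ha hb => by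
        obtain ⟨i, rfl⟩ := dn_ex a ha
        obtain ⟨j, rfl⟩ := up_ex b hb
        exact (H.le _ _).2 (hN.trans _ _ _ ((hdn i).1 ha) ((hup j).1 hb)), fun a ha hb => by
        obtain ⟨i, rfl⟩ := dn_ex a ha
        exact hw i (hN.antisymm _ _ ((hdn i).1 ha) ((hup i).1 hb)), fun a ha => by
        obtain ⟨i, rfl⟩ := dn_ex a ha
        exact (H.col i).trans (hN.col _ _ ((hdn i).1 ha)), fun a ha => by
        obtain ⟨i, rfl⟩ := up_ex a ha
        exact (H.col i).trans (hN.col _ _ ((hup i).1 ha)).symm, hl2, hl3⟩ hl4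
    refine ⟨z, ⟨?_, ?_, ?_, ?_⟩⟩
    · rintro (_ | i) (_ | j)
      · exact iff_of_true (hM.refl _) (hN.refl _)
      · exact (hz.up (f j) (hA j)).trans (hup j)
      · exact (hz.dn (f i) (hA i)).trans (hdn i)
      · exact H.le i j
    · rintro (_ | i) (_ | j)
      · exact hz.q.trans decide_eq_true_iff
      · exact (hz.qo (f j) (hA j)).trans (hqo j)
      · exact (hz.qi (f i) (hA i)).trans (hqi i)
      · exact H.Q i j
    · rintro (_ | i)
      · exact hz.c
      · exact H.col i
    · rintro (_ | i)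
      · show min (M.lev z) n = min (N.lev w) n
        rw [hz.l]
        exact hl1
      · exact H.lev i

/-- The extension property gives back the realization of types. -/
theorem ext_of_ep {α : Type} {M : Str α} (hM : Good M) (hE : EP M) (t : Typ α)
    (hA : {a | t.A a}.Finite) (ht : Valid M t) (hl : t.l = ⊤ → ∃ a, t.dn a ∧ M.lev a = ⊤) :
    ∃ b, Realizes M t b := by
  have hK := adj_good hM ht
  have : Finite {a // t.A a} := hA
  -- the truncation level
  obtain ⟨n, hn⟩ : ∃ n : ℕ, ∀ b, (∀ a, t.dn a → M.le a b) → min (M.lev b) n = min t.l n →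
      M.lev b = t.l := by
    by_cases h : t.l = ⊤
    · refine ⟨0, fun b hb _ => ?_⟩
      obtain ⟨a, ha, h1⟩ := hl h
      have := hM.lev _ _ (hb a ha)
      rw [h1] at this
      rw [h]
      exact top_le_iff.1 this
    · obtain ⟨m, hm⟩ := ENat.ne_top_iff_exists.1 h
      refine ⟨m + 1, fun b _ h1 => ?_⟩
      have h2 : t.l ≤ ((m + 1 : ℕ) : ℕ∞) := by
        rw [← hm]
        exact_mod_cast Nat.le_succ m
      rw [min_eq_left h2] at h1
      rcases min_choice (M.lev b) ((m + 1 : ℕ) : ℕ∞) with h3 | h3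
      · rw [← h1, h3]
      · rw [h3, ← hm] at h1
        exact absurd h1 (by
          intro h4
          have : m + 1 = m := by exact_mod_cast h4
          omega)
  obtain ⟨z, hz⟩ := hE n (Option α) (adj M t) hK {a // t.A a} (fun a => a.1) (fun a => some a.1)
    ⟨fun _ _ => Iff.rfl, fun _ _ => Iff.rfl, fun _ => rfl, fun _ => rfl⟩ none
  have hdn : ∀ a, t.A a → (M.le a z ↔ t.dn a) := fun a ha =>
    (hz.le (some ⟨a, ha⟩) none).trans (adj_dn hM ht a ha)
  refine ⟨z, ?_, hdn, ?_, ?_, ?_, ?_, ?_, ?_⟩
  · rintro a ha rfl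
    have h1 := (hz.eq_iff hM hK (some ⟨a, ha⟩) none).1 rfl
    exact absurd h1 (by simp [oc])
  · exact fun a ha => (hz.le none (some ⟨a, ha⟩)).trans (adj_up hM ht a ha)
  · exact fun a ha => hz.Q (some ⟨a, ha⟩) none
  · exact fun a ha => hz.Q none (some ⟨a, ha⟩)
  · exact hz.Q none none
  · exact hz.col none
  · exact hn z (fun a ha => (hdn a (ht.dnA a ha)).2 ha) (hz.lev none)

/-- Back and forth. -/
theorem bf {ι : Type} [Finite ι] {m : ℕ} (φ : Lg.BoundedFormula ι m) :
    ∃ n0 : ℕ, ∀ (α β : Type) [Lg.Structure α] [Lg.Structure β] (M : Str α) (N : Str β),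
      Rep M → Rep N → Good M → Good N → EP M → EP N → ∀ n : ℕ, n0 ≤ n →
      ∀ (v : ι → α) (v' : ι → β) (xs : Fin m → α) (xs' : Fin m → β),
        Same n M N (Sum.elim v xs) (Sum.elim v' xs') → (φ.Realize v xs ↔ φ.Realize v' xs') := by
  induction φ with
  | falsum => exact ⟨0, fun _ _ _ _ _ _ _ _ _ _ _ _ _ _ _ _ _ _ _ => Iff.rfl⟩
  | equal t₁ t₂ =>
    refine ⟨0, fun α β _ _ M N _ _ hM hN _ _ n _ v v' xs xs' H => ?_⟩
    cases t₁ with
    | var i =>
      cases t₂ with
      | var j => exact H.eq_iff hM hN i j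
      | func f _ => exact f.elim
    | func f _ => exact f.elim
  | rel R ts =>
    have key : ∀ i, ∃ j, ts i = FirstOrder.Language.Term.var j := by
      intro i
      cases ts i with
      | var j => exact ⟨j, rfl⟩
      | func f _ => exact f.elim
    choose j hj using key
    cases R with
    | le =>
      refine ⟨0, fun α β _ _ M N rM rN hM hN _ _ n _ v v' xs xs' H => ?_⟩
      refine (rM.le _).trans (Iff.trans ?_ (rN.le _).symm)
      simp only [hj]
      exact H.le _ _
    | Q =>
      refine ⟨0, fun α β _ _ M N rM rN hM hN _ _ n _ v v' xs xs' H => ?_⟩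
      refine (rM.Q _).trans (Iff.trans ?_ (rN.Q _).symm)
      simp only [hj]
      exact H.Q _ _
    | col =>
      refine ⟨0, fun α β _ _ M N rM rN hM hN _ _ n _ v v' xs xs' H => ?_⟩
      refine (rM.col _).trans (Iff.trans ?_ (rN.col _).symm)
      simp only [hj]
      exact iff_of_eq (congrArg (· = true) (H.col _))
    | lev k =>
      refine ⟨k + 1, fun α β _ _ M N rM rN hM hN _ _ n hn v v' xs xs' H => ?_⟩
      refine (rM.lev k _).trans (Iff.trans ?_ (rN.lev k _).symm)
      simp only [hj]
      have h1 := H.lev (j 0)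
      have hk : (k : ℕ∞) < n := by exact_mod_cast hn
      constructor
      · intro h2
        have h3 : (k : ℕ∞) < min (M.lev (Sum.elim v xs (j 0))) n := lt_min h2 hk
        rw [h1] at h3
        exact h3.trans_le (min_le_left _ _)
      · intro h2
        have h3 : (k : ℕ∞) < min (N.lev (Sum.elim v' xs' (j 0))) n := lt_min h2 hk
        rw [← h1] at h3
        exact h3.trans_le (min_le_left _ _)
  | imp φ ψ ih1 ih2 =>
    obtain ⟨n1, h1⟩ := ih1
    obtain ⟨n2, h2⟩ := ih2
    refine ⟨max n1 n2, fun α β _ _ M N rM rN hM hN eM eN n hn v v' xs xs' H => ?_⟩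
    exact imp_congr (h1 α β M N rM rN hM hN eM eN n ((le_max_left _ _).trans hn) v v' xs xs' H)
      (h2 α β M N rM rN hM hN eM eN n ((le_max_right _ _).trans hn) v v' xs xs' H)
  | @all m φ ih =>
    obtain ⟨n1, h1⟩ := ih
    refine ⟨n1, fun α β _ _ M N rM rN hM hN eM eN n hn v v' xs xs' H => ?_⟩
    let e : ι ⊕ Fin (m + 1) → Option (ι ⊕ Fin m) :=
      Sum.elim (fun i => some (Sum.inl i))
        (fun i => Fin.lastCases (motive := fun _ => Option (ι ⊕ Fin m)) none
          (fun i => some (Sum.inr i)) i)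
    have he : ∀ (γ : Type) (u : ι → γ) (us : Fin m → γ) (x : γ),
        Sum.elim u (Fin.snoc us x : Fin (m + 1) → γ) = oc (Sum.elim u us) x ∘ e := by
      intro γ u us x
      funext i
      rcases i with i | i
      · rfl
      · refine Fin.lastCases ?_ (fun i => ?_) i
        · simp [e, oc]
        · simp [e, oc]
    constructor
    · intro Hx y
      obtain ⟨x, hx⟩ := eM n β N hN _ (Sum.elim v xs) (Sum.elim v' xs') H y
      have h2 := hx.comp e
      rw [← he, ← he] at h2
      exact (h1 α β M N rM rN hM hN eM eN n hn v v' _ _ h2).1 (Hx x)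
    · intro Hy x
      obtain ⟨y, hy⟩ := eN n α M hM _ (Sum.elim v' xs') (Sum.elim v xs) H.symm x
      have h2 := hy.symm.comp e
      rw [← he, ← he] at h2
      exact (h1 α β M N rM rN hM hN eM eN n hn v v' _ _ h2).2 (Hy y)

theorem bf_formula {ι : Type} [Finite ι] {α β : Type} [Lg.Structure α] [Lg.Structure β]
    {M : Str α} {N : Str β} (rM : Rep M) (rN : Rep N) (hM : Good M) (hN : Good N) (eM : EP M)
    (eN : EP N) (φ : Lg.Formula ι) (v : ι → α) (v' : ι → β) (H : Same ⊤ M N v v') :
    φ.Realize v ↔ φ.Realize v' := by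
  obtain ⟨n, h⟩ := bf φ
  refine h α β M N rM rN hM hN eM eN n le_rfl v v' default default ?_
  have h1 : Same n M N v v' := H.mono le_top
  refine ⟨?_, ?_, ?_, ?_⟩
  · rintro (i | i) (j | j)
    · exact h1.le i j
    · exact j.elim0
    · exact i.elim0
    · exact i.elim0
  · rintro (i | i) (j | j)
    · exact h1.Q i j
    · exact j.elim0
    · exact i.elim0
    · exact i.elim0
  · rintro (i | i)
    · exact h1.col i
    · exact i.elim0
  · rintro (i | i)
    · exact h1.lev i
    · exact i.elim0

end Pool.Agent.X224.BE
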