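import Pool.Agent.X224.BE.QE

/-!
# Generic partial orders with levels: the theory and its models
-/

set_option autoImplicit false

open scoped FirstOrder

namespace Pool.Agent.X224.BE

open FirstOrder.Language (Term Formula)

/-- Indices of atomic formulas. -/
abbrev At (κ : Type) (n : ℕ) : Type := (κ × κ) ⊕ (κ × κ) ⊕ κ ⊕ (κ × Fin n)

/-- Atomic formulas. -/
def atF {κ : Type} {n : ℕ} : At κ n → Lg.Formula κ
  | Sum.inl p => FirstOrder.Language.Relations.formula (L := Lg) (n := 2) Rel.le
      ![Term.var p.1, Term.var p.2]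
  | Sum.inr (Sum.inl p) => FirstOrder.Language.Relations.formula (L := Lg) (n := 2) Rel.Q
      ![Term.var p.1, Term.var p.2]
  | Sum.inr (Sum.inr (Sum.inl i)) => FirstOrder.Language.Relations.formula (L := Lg) (n := 1)
      Rel.col ![Term.var i]
  | Sum.inr (Sum.inr (Sum.inr p)) => FirstOrder.Language.Relations.formula (L := Lg) (n := 1)
      (Rel.lev p.2.val) ![Term.var p.1]

/-- Their truth. -/
def atT {κ α : Type} {n : ℕ} (M : Str α) (f : κ → α) : At κ n → Prop
  | Sum.inl p => M.le (f p.1) (f p.2)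
  | Sum.inr (Sum.inl p) => M.Q (f p.1) (f p.2)
  | Sum.inr (Sum.inr (Sum.inl i)) => M.col (f i) = true
  | Sum.inr (Sum.inr (Sum.inr p)) => (p.2.val : ℕ∞) < M.lev (f p.1)

theorem realize_atF {κ α : Type} {n : ℕ} [Lg.Structure α] {M : Str α} (rM : Rep M) (f : κ → α)
    (a : At κ n) : (atF a).Realize f ↔ atT M f a := by
  rcases a with p | p | i | p
  · exact rM.le _
  · exact rM.Q _
  · exact rM.col _
  · exact rM.lev _ _

theorem min_eq_of {x y : ℕ∞} {n : ℕ} (h : ∀ m : ℕ, m < n → ((m : ℕ∞) < x ↔ (m : ℕ∞) < y)) :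
    min x n = min y n := by
  have key : ∀ x y : ℕ∞, (∀ m : ℕ, m < n → ((m : ℕ∞) < x → (m : ℕ∞) < y)) →
      min x n ≤ min y n := by
    intro x y h
    refine le_min ?_ (min_le_right _ _)
    by_contra hne
    push Not at hne
    have hy : y ≠ ⊤ := fun e => by
      rw [e] at hne
      exact not_top_lt hne
    obtain ⟨k, rfl⟩ := ENat.ne_top_iff_exists.1 hy
    have h1 : (k : ℕ∞) < x := hne.trans_le (min_le_left _ _)
    have h2 : (k : ℕ∞) < n := hne.trans_le (min_le_right _ _)
    exact absurd (h k (by exact_mod_cast h2) h1) (lt_irrefl _)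
  exact le_antisymm (key x y fun m hm => (h m hm).1) (key y x fun m hm => (h m hm).2)

theorem same_of_atT {κ α β : Type} {n : ℕ} {M : Str α} {N : Str β} {f : κ → α} {g : κ → β}
    (h : ∀ a : At κ n, atT M f a ↔ atT N g a) : Same n M N f g :=
  ⟨fun i j => h (Sum.inl (i, j)), fun i j => h (Sum.inr (Sum.inl (i, j))),
    fun i => by
      have := h (Sum.inr (Sum.inr (Sum.inl i)))
      exact Bool.eq_iff_iff.2 this,
    fun i => min_eq_of fun m hm => h (Sum.inr (Sum.inr (Sum.inr (i, ⟨m, hm⟩))))⟩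

theorem atT_of_same {κ α β : Type} {n : ℕ} {M : Str α} {N : Str β} {f : κ → α} {g : κ → β}
    (h : Same n M N f g) (a : At κ n) : atT M f a ↔ atT N g a := by
  rcases a with p | p | i | p
  · exact h.le _ _
  · exact h.Q _ _
  · exact Bool.eq_iff_iff.1 (h.col i)
  · have h1 := h.lev p.1
    have hk : (p.2.val : ℕ∞) < n := by exact_mod_cast p.2.2
    constructor
    · intro h2
      have h3 : (p.2.val : ℕ∞) < min (M.lev (f p.1)) n := lt_min h2 hk
      rw [h1] at h3
      exact h3.trans_le (min_le_left _ _)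
    · intro h2
      have h3 : (p.2.val : ℕ∞) < min (N.lev (g p.1)) n := lt_min h2 hk
      rw [← h1] at h3
      exact h3.trans_le (min_le_left _ _)

/-- The carrier of the prime model. -/
abbrev C0 : Type := Empty ⊕ ℕ

/-- The prime model. -/
noncomputable def M0 : Str C0 :=
  (exists_generic (Y := Empty) (fun _ _ => True) (fun _ => true)).choose

theorem M0_good : Good M0 :=
  (exists_generic (Y := Empty) (fun _ _ => True) (fun _ => true)).choose_spec.1

theorem M0_ext : Ext M0 :=
  (exists_generic (Y := Empty) (fun _ _ => True) (fun _ => true)).choose_spec.2.1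

noncomputable instance : Lg.Structure C0 := M0.toStructure

theorem M0_rep : Rep M0 := rep_toStructure M0

/-- The theory. -/
noncomputable def T0 : Lg.Theory := Lg.completeTheory C0

theorem T0_complete : T0.IsComplete := FirstOrder.Language.completeTheory.isComplete _ _

/-- Structures with the extension property are models. -/
theorem model_of_ep {N : Type} [Lg.Structure N] {S : Str N} (rS : Rep S) (hS : Good S)
    (eS : EP S) : N ⊨ T0 := by
  refine ⟨fun {φ} hφ => ?_⟩
  have h1 : C0 ⊨ φ := hφ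
  have key : ∀ (v : Empty → C0) (v' : Empty → N), Formula.Realize φ v → Formula.Realize φ v' :=
    fun v v' => (bf_formula (ι := Empty) M0_rep rS M0_good hS (ep_of_ext M0_good M0_ext) eS φ v
      v' ⟨fun i => i.elim, fun i => i.elim, fun i => i.elim, fun i => i.elim⟩).1
  exact key _ _ h1

/-- Finitely many formulas hold of some elements of `M0` exactly as they do in a given model. -/
theorem transfer {M : Type} [Lg.Structure M] (hM : M ⊨ T0) {α S : Type} [Finite α]
    [Finite S] (θ : S → Lg.Formula α) (v : α → M) :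
    ∃ w : α → C0, ∀ s, (θ s).Realize w ↔ (θ s).Realize v := by
  classical
  let χ : Lg.Formula α :=
    Formula.iInf fun s => if (θ s).Realize v then θ s else ∼(θ s)
  have hχ : ∀ {N : Type} [Lg.Structure N] (w : α → N), χ.Realize w ↔
      ∀ s, (θ s).Realize w ↔ (θ s).Realize v := by
    intro N _ w
    rw [Formula.realize_iInf]
    refine forall_congr' fun s => ?_
    split_ifs with h
    · simp [h]
    · simp [h, Formula.realize_not]
  let ψ : Lg.Sentence := (χ.relabel (Sum.inr : α → Empty ⊕ α)).iExs α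
  have hψ : ∀ {N : Type} [Lg.Structure N], N ⊨ ψ ↔ ∃ w : α → N, χ.Realize w := by
    intro N _
    show Formula.Realize ψ _ ↔ _
    rw [Formula.realize_iExs]
    refine exists_congr fun w => ?_
    rw [Formula.realize_relabel]
    rfl
  have h1 : M ⊨ ψ := hψ.2 ⟨v, (hχ v).2 fun s => Iff.rfl⟩
  have h2 : C0 ⊨ ψ := by
    by_contra hne
    have h3 : ψ.not ∈ T0 := by
      show ψ.not ∈ Lg.completeTheory C0
      rw [FirstOrder.Language.mem_completeTheory]
      exact hne
    have h4 := hM.realize_of_mem _ h3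
    exact h4 h1
  obtain ⟨w, hw⟩ := hψ.1 h2
  exact ⟨w, (hχ w).1 hw⟩

/-- The models of the theory. -/
theorem model_data {N : Type} [Lg.Structure N] (hN : N ⊨ T0) :
    ∃ S : Str N, Good S ∧ Rep S ∧ EP S := by
  classical
  let rle : N → N → Prop := fun a b =>
    FirstOrder.Language.Structure.RelMap (L := Lg) (n := 2) Rel.le ![a, b]
  let rlev : ℕ → N → Prop := fun n a =>
    FirstOrder.Language.Structure.RelMap (L := Lg) (n := 1) (Rel.lev n) ![a]
  let S : Str N := ⟨rle, fun a b =>
    FirstOrder.Language.Structure.RelMap (L := Lg) (n := 2) Rel.Q ![a, b], fun a =>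
    decide (FirstOrder.Language.Structure.RelMap (L := Lg) (n := 1) Rel.col ![a]),
    fun a => ⨆ (n : ℕ) (_ : rlev n a), ((n + 1 : ℕ) : ℕ∞)⟩
  have v2 : ∀ v : Fin 2 → N, v = ![v 0, v 1] := by
    intro v; funext i; fin_cases i <;> rfl
  have v1 : ∀ v : Fin 1 → N, v = ![v 0] := by
    intro v; funext i; fin_cases i; rfl
  -- truth of atomic formulas
  have hle : ∀ {κ : Type} (x : κ → N) (i j : κ), (atF (n := 0) (Sum.inl (i, j) : At κ 0)).Realize x
      ↔ rle (x i) (x j) := by
    intro κ x i j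
    show FirstOrder.Language.Structure.RelMap (L := Lg) (n := 2) Rel.le _ ↔ _
    rw [v2 (fun i_1 => _)]
    rfl
  have hlev : ∀ {κ : Type} {n : ℕ} (x : κ → N) (i : κ) (m : Fin n),
      (atF (Sum.inr (Sum.inr (Sum.inr (i, m))) : At κ n)).Realize x ↔ rlev m.val (x i) := by
    intro κ n x i m
    show FirstOrder.Language.Structure.RelMap (L := Lg) (n := 1) (Rel.lev m.val) _ ↔ _
    rw [v1 (fun i_1 => _)]
    rfl
  have hlev_anti : ∀ (m n : ℕ) (a : N), m ≤ n → rlev n a → rlev m a := by
    intro m n a hmn h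
    obtain ⟨w, hw⟩ := transfer hN (fun s : At (Fin 1) (n + 1) => atF s) ![a]
    have h1 := hw (Sum.inr (Sum.inr (Sum.inr (0, ⟨n, by omega⟩))))
    have h2 := hw (Sum.inr (Sum.inr (Sum.inr (0, ⟨m, by omega⟩))))
    rw [hlev, realize_atF M0_rep] at h1 h2
    refine h2.1 ?_
    have h3 := h1.2 h
    exact lt_of_le_of_lt (show ((m : ℕ) : ℕ∞) ≤ ((n : ℕ) : ℕ∞) by exact_mod_cast hmn) h3
  have lev_iff : ∀ (n : ℕ) (a : N), (n : ℕ∞) < S.lev a ↔ rlev n a := by
    intro n a
    constructor
    · intro h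
      obtain ⟨m, hm⟩ := lt_iSup_iff.1 h
      obtain ⟨h1, h2⟩ := lt_iSup_iff.1 hm
      refine hlev_anti n m a ?_ h1
      have : n < m + 1 := by exact_mod_cast h2
      omega
    · intro h
      refine lt_of_lt_of_le ?_ (le_iSup₂ (f := fun (n : ℕ) (_ : rlev n a) => ((n + 1 : ℕ) : ℕ∞)) n h)
      exact_mod_cast Nat.lt_succ_self n
  have rS : Rep S := by
    refine ⟨fun v => ?_, fun v => ?_, fun v => ?_, fun n v => ?_⟩
    · conv_lhs => rw [v2 v]
    · conv_lhs => rw [v2 v]
    · conv_lhs => rw [v1 v]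
      exact (decide_eq_true_iff).symm
    · rw [lev_iff]
      conv_lhs => rw [v1 v]
  have gS : Good S := by
    have tr : ∀ (n k : ℕ) (x : Fin k → N), ∃ w : Fin k → C0, Same n M0 S w x := by
      intro n k x
      obtain ⟨w, hw⟩ := transfer hN (fun s : At (Fin k) n => atF s) x
      refine ⟨w, same_of_atT fun a => ?_⟩
      rw [← realize_atF M0_rep, ← realize_atF rS]
      exact hw a
    have treq : ∀ a b : N, ∃ w : Fin 2 → C0, Same 0 M0 S w ![a, b] ∧ (w 0 = w 1 ↔ a = b) := by
      intro a b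
      obtain ⟨w, hw⟩ := transfer hN (fun s : At (Fin 2) 0 ⊕ Unit => Sum.elim (fun s => atF s)
        (fun _ => Term.equal (Term.var (0 : Fin 2)) (Term.var 1)) s) ![a, b]
      refine ⟨w, by
        have : Same ((0 : ℕ) : ℕ∞) M0 S w ![a, b] := same_of_atT fun s => by
          rw [← realize_atF M0_rep, ← realize_atF rS]
          exact hw (Sum.inl s)
        exact_mod_cast this, ?_⟩
      have := hw (Sum.inr ())
      simpa [Formula.realize_equal] using this
    refine ⟨fun a => ?_, fun a b c h1 h2 => ?_, fun a b h1 h2 => ?_, fun a b h => ?_,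
      fun a b h => ?_⟩
    · obtain ⟨w, hw⟩ := tr 0 1 ![a]
      exact (hw.le 0 0).1 (M0_good.refl _)
    · obtain ⟨w, hw⟩ := tr 0 3 ![a, b, c]
      exact (hw.le 0 2).1 (M0_good.trans _ _ _ ((hw.le 0 1).2 h1) ((hw.le 1 2).2 h2))
    · obtain ⟨w, hw, hw'⟩ := treq a b
      exact hw'.1 (M0_good.antisymm _ _ ((hw.le 0 1).2 h1) ((hw.le 1 0).2 h2))
    · obtain ⟨w, hw⟩ := tr 0 2 ![a, b]
      exact (hw.col 0).symm.trans ((M0_good.col _ _ ((hw.le 0 1).2 h)).trans (hw.col 1))
    · by_contra hne
      push Not at hne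
      have hy : S.lev b ≠ ⊤ := fun e => by
        rw [e] at hne
        exact not_top_lt hne
      obtain ⟨k, hk⟩ := ENat.ne_top_iff_exists.1 hy
      rw [← hk] at hne
      obtain ⟨w, hw⟩ := tr (k + 1) 2 ![a, b]
      have h3 := M0_good.lev _ _ ((hw.le 0 1).2 h)
      have h4 : min (S.lev a) ((k + 1 : ℕ) : ℕ∞) ≤ min (S.lev b) ((k + 1 : ℕ) : ℕ∞) := by
        have e1 := hw.lev 0
        have e2 := hw.lev 1
        have e3 : min (M0.lev (w 0)) ((k + 1 : ℕ) : ℕ∞) ≤ min (M0.lev (w 1)) ((k + 1 : ℕ) : ℕ∞) :=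
          min_le_min h3 le_rfl
        rw [e1, e2] at e3
        exact e3
      have h5 : (k : ℕ∞) < min (S.lev a) ((k + 1 : ℕ) : ℕ∞) :=
        lt_min hne (by exact_mod_cast Nat.lt_succ_self k)
      have h6 := (h5.trans_le h4).trans_le (min_le_left _ _)
      rw [← hk] at h6
      exact absurd h6 (lt_irrefl _)
  refine ⟨S, gS, rS, ?_⟩
  intro n β Nβ hβ ι _ f g H w
  let ch : At (Option ι) n → Lg.Formula (Option ι) := fun a =>
    if atT Nβ (oc g w) a then atF a else ∼(atF a)
  let χ : Lg.Formula ι := ((Formula.iInf ch).relabel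
    (fun o : Option ι => o.elim (Sum.inr ()) Sum.inl : Option ι → ι ⊕ Unit)).iExs Unit
  have hχ : ∀ {P : Type} [Lg.Structure P] {R : Str P} (_ : Rep R) (u : ι → P),
      χ.Realize u ↔ ∃ z : P, Same n R Nβ (oc u z) (oc g w) := by
    intro P _ R rR u
    rw [Formula.realize_iExs]
    have step : ∀ z : P, (((Formula.iInf ch).relabel
        (fun o : Option ι => o.elim (Sum.inr ()) Sum.inl : Option ι → ι ⊕ Unit)).Realize
        (Sum.elim u fun _ => z)) ↔ Same n R Nβ (oc u z) (oc g w) := by
      intro z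
      rw [Formula.realize_relabel, Formula.realize_iInf]
      have e : (Sum.elim u fun _ => z) ∘ (fun o : Option ι => o.elim (Sum.inr ()) Sum.inl :
          Option ι → ι ⊕ Unit) = oc u z := by
        funext o; cases o <;> rfl
      rw [e]
      constructor
      · intro h
        refine same_of_atT fun a => ?_
        have := h a
        simp only [ch] at this
        split_ifs at this with h1
        · exact iff_of_true ((realize_atF rR _ a).1 this) h1
        · rw [Formula.realize_not, realize_atF rR] at this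
          exact iff_of_false this h1
      · intro h a
        have h1 := atT_of_same h a
        simp only [ch]
        split_ifs with h2
        · exact (realize_atF rR _ a).2 (h1.2 h2)
        · rw [Formula.realize_not, realize_atF rR]
          exact fun h3 => h2 (h1.1 h3)
    constructor
    · rintro ⟨z, hz⟩
      exact ⟨z (), (step (z ())).1 hz⟩
    · rintro ⟨z, hz⟩
      exact ⟨fun _ => z, (step z).2 hz⟩
  obtain ⟨f0, hf0⟩ := transfer hN (fun s : At ι n ⊕ Unit => Sum.elim (fun a => atF a)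
    (fun _ => χ) s) f
  have H0 : Same n M0 S f0 f := same_of_atT fun a => by
    rw [← realize_atF M0_rep, ← realize_atF rS]
    exact hf0 (Sum.inl a)
  obtain ⟨z0, hz0⟩ := ep_of_ext M0_good M0_ext n β Nβ hβ ι f0 g (H0.trans H) w
  exact (hχ rS f).1 ((hf0 (Sum.inr ())).1 ((hχ M0_rep f0).2 ⟨z0, hz0⟩))

end Pool.Agent.X224.BE
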